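import Pool.Agent.H281F.Unir

/-!
Multinorm equations: the set of the solutions is empty or unirational.
-/

set_option autoImplicit false

open MvPolynomial Module

namespace Pool.Agent.H281F

variable {K : Type} [Field K] [CharZero K]

section field

variable {L : Type} [Field L] [Algebra K L] [FiniteDimensional K L] {n : ℕ} (b : Basis (Fin n) K L)

/-- the conjugates of a vector of coordinates -/
noncomputable def cj (e : Fin n → AlgebraicClosure K) (j : L →ₐ[K] AlgebraicClosure K) :
    AlgebraicClosure K := ∑ s, e s * j (b s)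

lemma cj_bij : Function.Bijective (fun e => cj b e) := by
  classical
  have hcard : Fintype.card (Fin n) = Fintype.card (L →ₐ[K] AlgebraicClosure K) := by
    rw [AlgHom.card, Fintype.card_fin, Module.finrank_eq_card_basis b, Fintype.card_fin]
  let eq : Fin n ≃ (L →ₐ[K] AlgebraicClosure K) := Fintype.equivOfCardEq hcard
  let M := Algebra.embeddingsMatrixReindex K (AlgebraicClosure K) b eq
  have hdet : M.det ≠ 0 := by
    intro h
    have h1 := Algebra.discr_eq_det_embeddingsMatrixReindex_pow_two K (AlgebraicClosure K) b eq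
    rw [show (Algebra.embeddingsMatrixReindex K (AlgebraicClosure K) b eq).det = 0 from h] at h1
    rw [zero_pow two_ne_zero, map_eq_zero] at h1
    exact Algebra.discr_not_zero_of_basis K b h1
  have hU : IsUnit M := by
    rw [Matrix.isUnit_iff_isUnit_det]
    exact isUnit_iff_ne_zero.2 hdet
  have hM : ∀ (e : Fin n → AlgebraicClosure K) (t : Fin n),
      cj b e (eq t) = Matrix.vecMul e M t := by
    intro e t
    rfl
  constructor
  · intro e e' h
    refine Matrix.vecMul_injective_iff_isUnit.2 hU ?_
    funext t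
    show Matrix.vecMul e M t = Matrix.vecMul e' M t
    rw [← hM, ← hM]
    exact congrFun h (eq t)
  · intro y
    obtain ⟨e, he⟩ := Matrix.vecMul_surjective_iff_isUnit.2 hU (fun t => y (eq t))
    refine ⟨e, funext fun j => ?_⟩
    obtain ⟨t, rfl⟩ := eq.surjective j
    show cj b e (eq t) = _
    rw [hM]
    exact congrFun he t

omit [CharZero K] [FiniteDimensional K L] in
lemma cj_base (e : Fin n → K) (j : L →ₐ[K] AlgebraicClosure K) :
    cj b (fun s => algebraMap K (AlgebraicClosure K) (e s)) j = j (∑ s, e s • b s) := by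
  unfold cj
  rw [map_sum]
  refine Finset.sum_congr rfl fun s _ => ?_
  rw [map_smul, Algebra.smul_def]

/-- polynomial maps to `L` -/
def PV {ι : Type} (F : (ι → K) → L) : Prop :=
  ∃ q : Fin n → MvPolynomial ι K, ∀ e, F e = ∑ s, eval e (q s) • b s

variable {b}

omit [CharZero K] [FiniteDimensional K L] in
lemma PV.const {ι : Type} (x : L) : PV b (fun _ : ι → K => x) :=
  ⟨fun s => C (b.repr x s), fun e => by
    simp only [eval_C]
    exact (b.sum_repr x).symm⟩

omit [CharZero K] [FiniteDimensional K L] in
lemma PV.lin {ι : Type} (f : Fin n → ι) : PV b (fun e : ι → K => ∑ s, e (f s) • b s) :=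
  ⟨fun s => X (f s), fun e => by simp⟩

omit [CharZero K] [FiniteDimensional K L] in
lemma PV.mul {ι : Type} {F G : (ι → K) → L} (hF : PV b F) (hG : PV b G) :
    PV b (fun e => F e * G e) := by
  obtain ⟨q, hq⟩ := hF
  obtain ⟨q', hq'⟩ := hG
  refine ⟨fun r => ∑ s, ∑ t, q s * q' t * C (b.repr (b s * b t) r), fun e => ?_⟩
  have h1 : ∀ r, eval e (∑ s, ∑ t, q s * q' t * C (b.repr (b s * b t) r)) • b r =
      ∑ s, ∑ t, (eval e (q s) * eval e (q' t)) • (b.repr (b s * b t) r • b r) := by
    intro r
    rw [map_sum, Finset.sum_smul]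
    refine Finset.sum_congr rfl fun s _ => ?_
    rw [map_sum, Finset.sum_smul]
    refine Finset.sum_congr rfl fun t _ => ?_
    rw [map_mul, map_mul, eval_C, mul_smul]
  show F e * G e = _
  rw [Finset.sum_congr rfl fun r _ => h1 r, Finset.sum_comm, hq, hq', Finset.sum_mul]
  refine Finset.sum_congr rfl fun s _ => ?_
  rw [Finset.sum_comm, Finset.mul_sum]
  refine Finset.sum_congr rfl fun t _ => ?_
  rw [← Finset.smul_sum, b.sum_repr, smul_mul_smul_comm]

omit [CharZero K] [FiniteDimensional K L] in
lemma PV.pow {ι : Type} {F : (ι → K) → L} (hF : PV b F) (k : ℕ) : PV b (fun e => F e ^ k) := by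
  induction k with
  | zero => simpa using PV.const (b := b) (ι := ι) 1
  | succ k ih =>
    simp only [pow_succ]
    exact ih.mul hF

omit [CharZero K] [FiniteDimensional K L] in
lemma PV.norm {ι : Type} {F : (ι → K) → L} (hF : PV b F) :
    ∃ v : MvPolynomial ι K, ∀ e, Algebra.norm K (F e) = eval e v := by
  classical
  obtain ⟨q, hq⟩ := hF
  refine ⟨(Matrix.of fun i j => ∑ s, q s * C (Algebra.leftMulMatrix b (b s) i j) :
    Matrix (Fin n) (Fin n) (MvPolynomial ι K)).det, fun e => ?_⟩
  rw [Algebra.norm_eq_matrix_det b, RingHom.map_det]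
  congr 1
  ext i j
  rw [RingHom.mapMatrix_apply, Matrix.map_apply, Matrix.of_apply, map_sum, hq, map_sum,
    Matrix.sum_apply]
  refine Finset.sum_congr rfl fun s _ => ?_
  rw [map_smul, Matrix.smul_apply, map_mul, eval_C, smul_eq_mul]

end field

/-- identities over the algebraic closure -/
lemma id_over {ι : Type} [Fintype ι] (A B : MvPolynomial ι (AlgebraicClosure K))
    (h : ∀ e : ι → K, eval (fun i => algebraMap K (AlgebraicClosure K) (e i)) A =
      eval (fun i => algebraMap K (AlgebraicClosure K) (e i)) B) : A = B := by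
  refine MvPolynomial.funext_set (fun _ => Set.range (algebraMap K (AlgebraicClosure K))) ?_ ?_
  · intro i
    exact Set.infinite_range_of_injective (algebraMap K (AlgebraicClosure K)).injective
  · intro x hx
    have h1 : ∀ i, ∃ a : K, algebraMap K (AlgebraicClosure K) a = x i := fun i =>
      hx i (Set.mem_univ i)
    choose e he using h1
    have : x = fun i => algebraMap K (AlgebraicClosure K) (e i) := funext fun i => (he i).symm
    rw [this]
    exact h e

omit [CharZero K] in
lemma aeval_eq_eval_map {ι : Type} (p : MvPolynomial ι K) (e : ι → AlgebraicClosure K) :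
    aeval e p = eval e (MvPolynomial.map (algebraMap K (AlgebraicClosure K)) p) := by
  rw [MvPolynomial.aeval_def, MvPolynomial.eval₂_eq_eval_map]

/-- indices -/
abbrev Ix {r : ℕ} (n : Fin (r + 1) → ℕ) : Type := (i : Fin (r + 1)) × Fin (n i)

/-- The set of the solutions of the multinorm equation `∏ N(z_i) = c` in coordinates. -/
def MultiNorm {r : ℕ} {n : Fin (r + 1) → ℕ} (L : Fin (r + 1) → Type) [∀ i, Field (L i)]
    [∀ i, Algebra K (L i)] (b : ∀ i, Basis (Fin (n i)) K (L i)) (c : K) :
    Set (Ix n → K) :=
  {x | ∏ i, Algebra.norm K (∑ s, x ⟨i, s⟩ • b i s) = c}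

theorem multinorm {r : ℕ} {n : Fin (r + 1) → ℕ} (L : Fin (r + 1) → Type) [∀ i, Field (L i)]
    [∀ i, Algebra K (L i)] [∀ i, FiniteDimensional K (L i)]
    (b : ∀ i, Basis (Fin (n i)) K (L i)) (c : K) (hc : c ≠ 0) :
    MultiNorm L b c = ∅ ∨ Unirational (MultiNorm L b c) := by
  classical
  rcases Set.eq_empty_or_nonempty (MultiNorm L b c) with h | ⟨x0, hx0⟩
  · exact Or.inl h
  right
  -- the point
  let P : ∀ i, L i := fun i => ∑ s, x0 ⟨i, s⟩ • b i s
  have hP : ∏ i, Algebra.norm K (P i) = c := hx0
  have hP0 : ∀ i, P i ≠ 0 := by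
    intro i h
    apply hc
    rw [← hP]
    exact Finset.prod_eq_zero (Finset.mem_univ i) (by rw [h, Algebra.norm_zero])
  let N : ℕ := ∑ i, n i
  let w : ∀ i, (Ix n → K) → L i := fun i e => ∑ s, e ⟨i, s⟩ • b i s
  have hw : ∀ i, PV (b i) (w i) := fun i => PV.lin (b := b i) fun s => (⟨i, s⟩ : Ix n)
  have hu : ∀ i, PV (b i) (fun e => P i * w i e ^ N) := fun i => (PV.const (P i)).mul ((hw i).pow N)
  choose q hq using hu
  have hv : ∀ i, ∃ v : MvPolynomial (Ix n) K, ∀ e, Algebra.norm K (w i e) = eval e v :=
    fun i => (hw i).norm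
  choose v' hv' using hv
  let v : MvPolynomial (Ix n) K := ∏ i, v' i
  have hve : ∀ e, eval e v = ∏ i, Algebra.norm K (w i e) := by
    intro e
    simp only [v, map_prod]
    exact Finset.prod_congr rfl fun i _ => (hv' i e).symm
  let u : Ix n → MvPolynomial (Ix n) K := fun x => q x.1 x.2
  have hue : ∀ i e, ∑ s, eval e (u ⟨i, s⟩) • b i s = P i * w i e ^ N := fun i e => (hq i e).symm
  have hv0 : v ≠ 0 := by
    intro h
    let e1 : Ix n → K := fun x => (b x.1).repr 1 x.2
    have h1 : ∀ i, w i e1 = 1 := fun i => (b i).sum_repr 1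
    have h2 := hve e1
    rw [h, map_zero] at h2
    simp only [h1, map_one, Finset.prod_const_one] at h2
    exact zero_ne_one h2
  have hn : ∀ i, 0 < n i := by
    intro i
    have h1 := Module.finrank_pos (R := K) (M := L i)
    rwa [Module.finrank_eq_card_basis (b i), Fintype.card_fin] at h1
  have hN : 0 < N := Finset.sum_pos (fun i _ => hn i) Finset.univ_nonempty
  refine ⟨Ix n, inferInstance, u, v, hv0, ?_, ?_⟩
  · -- the values are in the set
    intro e he
    show ∏ i, Algebra.norm K (∑ s, (eval e (u ⟨i, s⟩) / eval e v) • b i s) = c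
    have h1 : ∀ i, ∑ s, (eval e (u ⟨i, s⟩) / eval e v) • b i s =
        (eval e v)⁻¹ • (P i * w i e ^ N) := by
      intro i
      rw [← hue i e, Finset.smul_sum]
      refine Finset.sum_congr rfl fun s _ => ?_
      rw [smul_smul, div_eq_inv_mul]
    have h2 : ∀ i, Algebra.norm K ((eval e v)⁻¹ • (P i * w i e ^ N)) =
        ((eval e v)⁻¹) ^ n i * (Algebra.norm K (P i) * Algebra.norm K (w i e) ^ N) := by
      intro i
      rw [Algebra.smul_def, map_mul, Algebra.norm_algebraMap, Module.finrank_eq_card_basis (b i),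
        Fintype.card_fin, map_mul, map_pow]
    rw [Finset.prod_congr rfl fun i _ => (by rw [h1 i, h2 i] :
      Algebra.norm K (∑ s, (eval e (u ⟨i, s⟩) / eval e v) • b i s) = _)]
    rw [Finset.prod_mul_distrib, Finset.prod_mul_distrib, hP, Finset.prod_pow_eq_pow_sum,
      Finset.prod_pow, ← hve e]
    show (eval e v)⁻¹ ^ N * (c * eval e v ^ N) = c
    rw [inv_pow]
    field_simp
  · -- density
    intro g hg Q hQ
    obtain ⟨D, G, hG⟩ := clear u v g
    have hG0 : G = 0 := by
      have h1 : G * v = 0 := by
        apply MvPolynomial.funext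
        intro e
        rw [map_zero, map_mul]
        by_cases he : eval e v = 0
        · rw [he, mul_zero]
        · have h2 := hG K e (by rwa [aeE])
          simp only [aeE] at h2
          rw [h2, hg e he, mul_zero, zero_mul]
      exact (mul_eq_zero.1 h1).resolve_right hv0
    -- identities over the algebraic closure
    have I1 : ∀ (e : Ix n → (AlgebraicClosure K)) (i : Fin (r + 1)) (j : L i →ₐ[K] (AlgebraicClosure K)),
        cj (b i) (fun s => aeval e (u ⟨i, s⟩)) j =
          j (P i) * cj (b i) (fun s => e ⟨i, s⟩) j ^ N := by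
      intro e i j
      have h1 := id_over (K := K) (ι := Ix n)
        (∑ s, MvPolynomial.map (algebraMap K (AlgebraicClosure K)) (u ⟨i, s⟩) * C (j (b i s)))
        (C (j (P i)) * (∑ s, X (⟨i, s⟩ : Ix n) * C (j (b i s))) ^ N) (by
          intro e
          simp only [map_sum, map_mul, map_pow, eval_C, eval_X]
          have h2 : ∀ s, eval (fun i => algebraMap K (AlgebraicClosure K) (e i))
              (MvPolynomial.map (algebraMap K (AlgebraicClosure K)) (u ⟨i, s⟩)) =
              algebraMap K (AlgebraicClosure K) (eval e (u ⟨i, s⟩)) := by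
            intro s
            rw [eval_map, eval₂_comp]
            rfl
          rw [Finset.sum_congr rfl fun s _ => by rw [h2 s]]
          have h3 := cj_base (b i) (fun s => eval e (u ⟨i, s⟩)) j
          have h4 := cj_base (b i) (fun s => e ⟨i, s⟩) j
          unfold cj at h3 h4
          rw [h3, h4, hue i e, map_mul, map_pow])
      have h5 := congrArg (eval e) h1
      simp only [map_sum, map_mul, map_pow, eval_C, eval_X] at h5
      unfold cj
      simp only [aeval_eq_eval_map]
      exact h5
    have I2 : ∀ e : Ix n → (AlgebraicClosure K), aeval e v = ∏ i, ∏ j : L i →ₐ[K] (AlgebraicClosure K), cj (b i) (fun s => e ⟨i, s⟩) j := by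
      intro e
      have h1 := id_over (K := K) (ι := Ix n) (MvPolynomial.map (algebraMap K (AlgebraicClosure K)) v)
        (∏ i, ∏ j : L i →ₐ[K] (AlgebraicClosure K), ∑ s, X (⟨i, s⟩ : Ix n) * C (j (b i s))) (by
          intro e
          simp only [map_prod, map_sum, map_mul, eval_C, eval_X]
          have h2 : eval (fun i => algebraMap K (AlgebraicClosure K) (e i)) (MvPolynomial.map (algebraMap K (AlgebraicClosure K)) v) =
              algebraMap K (AlgebraicClosure K) (eval e v) := by
            rw [eval_map, eval₂_comp]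
            rfl
          rw [h2, hve, map_prod]
          refine Finset.prod_congr rfl fun i _ => ?_
          rw [Algebra.norm_eq_prod_embeddings K (AlgebraicClosure K)]
          refine Finset.prod_congr rfl fun j _ => ?_
          have h4 := cj_base (b i) (fun s => e ⟨i, s⟩) j
          unfold cj at h4
          exact h4.symm)
      have h5 := congrArg (eval e) h1
      simp only [map_prod, map_sum, map_mul, eval_C, eval_X] at h5
      unfold cj
      rw [aeval_eq_eval_map]
      exact h5
    -- roots
    let z : ∀ i, L i := fun i => ∑ s, Q ⟨i, s⟩ • b i s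
    have hz : ∏ i, Algebra.norm K (z i) = c := hQ
    let J := (i : Fin (r + 1)) × (L i →ₐ[K] (AlgebraicClosure K))
    have hroot : ∀ x : J, ∃ y : (AlgebraicClosure K), y ^ N = x.2 (z x.1) / x.2 (P x.1) :=
      fun x => IsAlgClosed.exists_pow_nat_eq _ hN
    choose y' hy' using hroot
    have hprodq : ∏ x : J, (x.2 (z x.1) / x.2 (P x.1)) = 1 := by
      rw [Finset.prod_div_distrib, Fintype.prod_sigma, Fintype.prod_sigma]
      have h1 : ∀ f : ∀ i, L i, ∏ i, ∏ j : L i →ₐ[K] (AlgebraicClosure K), j (f i) =
          algebraMap K (AlgebraicClosure K) (∏ i, Algebra.norm K (f i)) := by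
        intro f
        rw [map_prod]
        exact Finset.prod_congr rfl fun i _ => (Algebra.norm_eq_prod_embeddings K (AlgebraicClosure K) (f i)).symm
      rw [h1 z, h1 P, hz, hP]
      exact div_self ((map_ne_zero _).2 hc)
    let ζ : (AlgebraicClosure K) := ∏ x : J, y' x
    have hζ : ζ ^ N = 1 := by
      rw [← hprodq, ← Finset.prod_pow]
      exact Finset.prod_congr rfl fun x _ => hy' x
    have hζ0 : ζ ≠ 0 := by
      intro h
      rw [h, zero_pow hN.ne'] at hζ
      exact zero_ne_one hζ
    obtain ⟨j0⟩ : Nonempty (L 0 →ₐ[K] (AlgebraicClosure K)) := ⟨IsAlgClosed.lift⟩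
    let y : J → (AlgebraicClosure K) := fun x => y' x * if x = ⟨0, j0⟩ then ζ⁻¹ else 1
    have hy : ∀ x : J, x.2 (P x.1) * y x ^ N = x.2 (z x.1) := by
      intro x
      have h0 : x.2 (P x.1) ≠ 0 := (map_ne_zero _).2 (hP0 x.1)
      have h1 : y x ^ N = x.2 (z x.1) / x.2 (P x.1) := by
        simp only [y]
        rw [mul_pow, hy' x]
        split_ifs
        · rw [inv_pow, hζ, inv_one, mul_one]
        · rw [one_pow, mul_one]
      rw [h1, mul_div_cancel₀ _ h0]
    have hy1 : ∏ x : J, y x = 1 := by
      simp only [y]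
      rw [Finset.prod_mul_distrib, Finset.prod_ite_eq' Finset.univ]
      rw [if_pos (Finset.mem_univ _)]
      exact mul_inv_cancel₀ hζ0
    have hex : ∀ i, ∃ e : Fin (n i) → (AlgebraicClosure K), cj (b i) e = fun j => y ⟨i, j⟩ :=
      fun i => (cj_bij (b i)).2 _
    choose e' he' using hex
    let e : Ix n → (AlgebraicClosure K) := fun x => e' x.1 x.2
    have hev : aeval e v = 1 := by
      rw [I2 e, ← hy1, Fintype.prod_sigma]
      refine Finset.prod_congr rfl fun i _ => Finset.prod_congr rfl fun j _ => ?_
      exact congrFun (he' i) j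
    have heu : ∀ x : Ix n, aeval e (u x) = algebraMap K (AlgebraicClosure K) (Q x) := by
      rintro ⟨i, s⟩
      have h1 : (fun s => aeval e (u ⟨i, s⟩)) = fun s => algebraMap K (AlgebraicClosure K) (Q ⟨i, s⟩) := by
        apply (cj_bij (b i)).1
        funext j
        show cj (b i) _ j = cj (b i) _ j
        rw [I1 e i j, cj_base (b i) (fun s => Q ⟨i, s⟩) j]
        have h2 : cj (b i) (fun s => e ⟨i, s⟩) j = y ⟨i, j⟩ := congrFun (he' i) j
        rw [h2]
        exact hy ⟨i, j⟩
      exact congrFun h1 s
    have h1 := hG (AlgebraicClosure K) e (by rw [hev]; exact one_ne_zero)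
    rw [hG0, map_zero, hev, one_pow, one_mul] at h1
    simp only [div_one, heu] at h1
    have h2 : aeval (fun i => algebraMap K (AlgebraicClosure K) (Q i)) g = algebraMap K (AlgebraicClosure K) (eval Q g) := by
      rw [aeval_eq_eval_map, eval_map, eval₂_comp]
      rfl
    rw [h2] at h1
    exact (map_eq_zero _).1 h1.symm

end Pool.Agent.H281F
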