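import Pool.Agent.Y718.FQ.Vals

/-!
Unirational sets of points and flat sets.
-/

set_option autoImplicit false

open MvPolynomial

namespace Pool.Agent.H281F

/-- clearing the denominators in a composition -/
lemma clear {K : Type} [Field K] {σ κ : Type} (u : σ → MvPolynomial κ K) (v : MvPolynomial κ K)
    (p : MvPolynomial σ K) : ∃ (D : ℕ) (P : MvPolynomial κ K),
      ∀ (F : Type) [Field F] [Algebra K F] (e : κ → F), aeval e v ≠ 0 →
        aeval e P = (aeval e v) ^ D * aeval (fun i => aeval e (u i) / aeval e v) p := by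
  induction p using MvPolynomial.induction_on with
  | C a => exact ⟨0, C a, fun F _ _ e _ => by simp⟩
  | add p q hp hq =>
    obtain ⟨D, P, hP⟩ := hp
    obtain ⟨D', Q, hQ⟩ := hq
    refine ⟨D + D', v ^ D' * P + v ^ D * Q, fun F _ _ e he => ?_⟩
    rw [map_add, map_mul, map_mul, map_pow, map_pow, hP F e he, hQ F e he, map_add]
    ring
  | mul_X p i hp =>
    obtain ⟨D, P, hP⟩ := hp
    refine ⟨D + 1, P * u i, fun F _ _ e he => ?_⟩
    rw [map_mul, hP F e he, map_mul, aeval_X, pow_succ]
    field_simp

/-- The set `S` of points with coordinates in `K` is unirational over `K`: it contains a Zariski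
dense set of values of a rational map, which is given by the rational functions `u i / v`. -/
def Unirational {K : Type} [Field K] {σ : Type} (S : Set (σ → K)) : Prop :=
  ∃ (κ : Type) (_ : Fintype κ) (u : σ → MvPolynomial κ K) (v : MvPolynomial κ K), v ≠ 0 ∧
    (∀ e : κ → K, eval e v ≠ 0 → (fun i => eval e (u i) / eval e v) ∈ S) ∧
    ∀ g : MvPolynomial σ K,
      (∀ e : κ → K, eval e v ≠ 0 → eval (fun i => eval e (u i) / eval e v) g = 0) →
      ∀ x ∈ S, eval x g = 0

lemma aeE {K : Type} [Field K] {κ : Type} (e : κ → K) (p : MvPolynomial κ K) :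
    aeval e p = eval e p := DFunLike.congr_fun (coe_aeval_eq_eval e) p

lemma clear' {K : Type} [Field K] {σ κ : Type} (u : σ → MvPolynomial κ K) (v : MvPolynomial κ K)
    (p : MvPolynomial σ K) : ∃ (D : ℕ) (P : MvPolynomial κ K), ∀ e : κ → K, eval e v ≠ 0 →
        eval e P = (eval e v) ^ D * eval (fun i => eval e (u i) / eval e v) p := by
  obtain ⟨D, P, h⟩ := clear u v p
  refine ⟨D, P, fun e he => ?_⟩
  have := h K e (by rwa [aeE])
  simpa only [aeE] using this

theorem Unirational.cp {K : Type} [Field K] [CharZero K] {O : Set K}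
    (hO : Pool.Agent.TH783.CE.Flat O) {σ : Type} {S : Set (σ → K)} (h : Unirational S) :
    Pool.Agent.Y718.FQ.CP O S := by
  obtain ⟨κ, _, u, v, hv, hS, hd⟩ := h
  refine ⟨?_, ?_, ?_⟩
  · obtain ⟨e, he⟩ : ∃ e : κ → K, eval e v ≠ 0 := by
      by_contra hc
      push Not at hc
      exact hv (MvPolynomial.funext fun e => by rw [hc e, map_zero])
    exact ⟨_, hS e he⟩
  · intro g h hgh
    obtain ⟨D, G, hG⟩ := clear' u v g
    obtain ⟨D', H, hH⟩ := clear' u v h
    have h1 : G * H * v = 0 := by
      apply MvPolynomial.funext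
      intro e
      rw [map_zero, map_mul, map_mul]
      by_cases he : eval e v = 0
      · rw [he, mul_zero]
      · rcases hgh _ (hS e he) with h2 | h2
        · rw [hG e he, h2]; ring
        · rw [hH e he, h2]; ring
    have h2 : G = 0 ∨ H = 0 := by
      rcases mul_eq_zero.1 h1 with h2 | h2
      · exact mul_eq_zero.1 h2
      · exact absurd h2 hv
    rcases h2 with rfl | rfl
    · refine Or.inl fun x hx => hd g (fun e he => ?_) x hx
      have h3 := hG e he
      rw [map_zero] at h3
      exact (mul_eq_zero.1 h3.symm).resolve_left (pow_ne_zero _ he)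
    · refine Or.inr fun x hx => hd h (fun e he => ?_) x hx
      have h3 := hH e he
      rw [map_zero] at h3
      exact (mul_eq_zero.1 h3.symm).resolve_left (pow_ne_zero _ he)
  · rintro p q hpq ⟨x, hx, hqx⟩
    obtain ⟨D, P, hP⟩ := clear' u v p
    obtain ⟨D', Q, hQ⟩ := clear' u v q
    have hQ0 : Q ≠ 0 := by
      rintro rfl
      refine hqx (hd q (fun e he => ?_) x hx)
      have h3 := hQ e he
      rw [map_zero] at h3
      exact (mul_eq_zero.1 h3.symm).resolve_left (pow_ne_zero _ he)
    obtain ⟨c, hc⟩ := Pool.Agent.Y349.FQ.mvf K O hO κ (P * v ^ D') (Q * v ^ D) v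
      (mul_ne_zero hQ0 (pow_ne_zero _ hv)) hv (fun e h1 he => by
        rw [map_mul, map_pow, mul_ne_zero_iff] at h1
        rw [map_mul, map_mul, map_pow, map_pow, hP e he, hQ e he]
        have h2 : eval (fun i => eval e (u i) / eval e v) q ≠ 0 := by
          intro h0
          apply h1.1
          rw [hQ e he, h0, mul_zero]
        have h3 := hpq _ (hS e he) h2
        convert h3 using 1
        have hv1 : (eval e v) ^ D ≠ 0 := pow_ne_zero _ he
        have hv2 : (eval e v) ^ D' ≠ 0 := pow_ne_zero _ he
        field_simp)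
    refine ⟨c, fun x hx => ?_⟩
    have h4 := hd (p - C c * q) (fun e he => by
      have h5 := congrArg (eval e) hc
      rw [map_mul, map_mul, map_mul, map_pow, map_pow, eval_C, hP e he, hQ e he] at h5
      rw [map_sub, map_mul, eval_C, sub_eq_zero]
      have hv1 : (eval e v) ^ D ≠ 0 := pow_ne_zero _ he
      have hv2 : (eval e v) ^ D' ≠ 0 := pow_ne_zero _ he
      have h6 : (eval e v) ^ D * (eval e v) ^ D' *
          (eval (fun i => eval e (u i) / eval e v) p) = (eval e v) ^ D * (eval e v) ^ D' *
          (c * eval (fun i => eval e (u i) / eval e v) q) := by linear_combination h5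
      exact mul_left_cancel₀ (mul_ne_zero hv1 hv2) h6) x hx
    rw [map_sub, map_mul, eval_C, sub_eq_zero] at h4
    exact h4

end Pool.Agent.H281F
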